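import Pool.Agent.TH783.CE.Slice

/-!
# Sets of points with a projection which is not thin

Let `S` be a set of points of `K ^ (n + 1)` whose projection to the first coordinate is not thin.
Then there is an irreducible closed set `W` such that `S ∩ W` is dense in `W`, the first coordinate
is not constant on `W` and the field of rational functions in the first coordinate is algebraically
closed in the function field of `W`.
-/

set_option autoImplicit false
set_option linter.unusedSectionVars false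

namespace Pool.Agent.Q312.PR

open Polynomial Pool.Agent.TH783.CE

section general

variable {K : Type} [Field K] {n : ℕ}

/-- the first coordinates of the points of `S` at which all elements of `I` vanish -/
def proj (S : Set (Fin (n + 1) → K)) (I : Ideal (MvPolynomial (Fin (n + 1)) K)) : Set K :=
  {a | ∃ x ∈ S, (∀ f ∈ I, MvPolynomial.eval x f = 0) ∧ x 0 = a}

theorem proj_mono {S : Set (Fin (n + 1) → K)} {I J : Ideal (MvPolynomial (Fin (n + 1)) K)}
    (h : I ≤ J) : proj S J ⊆ proj S I := by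
  rintro a ⟨x, hx, hx', rfl⟩
  exact ⟨x, hx, fun f hf => hx' f (h hf), rfl⟩

/-- the map from polynomials to the function field -/
noncomputable def emb (P : Ideal (MvPolynomial (Fin (n + 1)) K)) :
    MvPolynomial (Fin (n + 1)) K →+* FractionRing (MvPolynomial (Fin (n + 1)) K ⧸ P) :=
  (algebraMap (MvPolynomial (Fin (n + 1)) K ⧸ P) _).comp (Ideal.Quotient.mk P)

/-- the map from polynomials in the first coordinate to the function field -/
noncomputable def up (P : Ideal (MvPolynomial (Fin (n + 1)) K)) :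
    K[X] →+* FractionRing (MvPolynomial (Fin (n + 1)) K ⧸ P) :=
  (emb P).comp (Polynomial.aeval (MvPolynomial.X 0 : MvPolynomial (Fin (n + 1)) K)).toRingHom

theorem emb_eq_zero (P : Ideal (MvPolynomial (Fin (n + 1)) K)) (f : MvPolynomial (Fin (n + 1)) K) :
    emb P f = 0 ↔ f ∈ P := by
  rw [emb, RingHom.comp_apply, ← Ideal.Quotient.eq_zero_iff_mem]
  exact map_eq_zero_iff _ (IsFractionRing.injective (MvPolynomial (Fin (n + 1)) K ⧸ P) _)

theorem up_apply (P : Ideal (MvPolynomial (Fin (n + 1)) K)) (p : K[X]) :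
    up P p = emb P (Polynomial.aeval (MvPolynomial.X 0 : MvPolynomial (Fin (n + 1)) K) p) := rfl

theorem eval_aeval (x : Fin (n + 1) → K) (p : K[X]) :
    MvPolynomial.eval x (Polynomial.aeval (MvPolynomial.X 0 : MvPolynomial (Fin (n + 1)) K) p) =
      p.eval (x 0) := by
  have h := Polynomial.hom_eval₂ p (MvPolynomial.C : K →+* MvPolynomial (Fin (n + 1)) K)
    (MvPolynomial.eval x) (MvPolynomial.X 0)
  rw [MvPolynomial.eval_X] at h
  rw [Polynomial.aeval_def, MvPolynomial.algebraMap_eq, h]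
  have h2 : (MvPolynomial.eval x).comp MvPolynomial.C = RingHom.id K := by
    ext c
    simp
  rw [h2]
  rfl

theorem sum_homog {A L : Type} [CommRing A] [Field L] (φ : A →+* L) (G : A[X]) (u w : L)
    (hw : w ≠ 0) : ∑ i ∈ Finset.range (G.natDegree + 1), φ (G.coeff i) * u ^ i *
      w ^ (G.natDegree - i) = w ^ G.natDegree * G.eval₂ φ (u / w) := by
  rw [eval₂_eq_sum_range, Finset.mul_sum]
  refine Finset.sum_congr rfl fun i hi => ?_
  have h1 : i ≤ G.natDegree := Nat.lt_succ_iff.1 (Finset.mem_range.1 hi)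
  rw [div_pow]
  have h2 : w ^ G.natDegree = w ^ (G.natDegree - i) * w ^ i := by
    rw [← pow_add, Nat.sub_add_cancel h1]
  rw [h2]
  field_simp

/-- substitution of rational functions -/
theorem subst (p : Fin (n + 1) → K[X]) (q : K[X]) (f : MvPolynomial (Fin (n + 1)) K) :
    ∃ (h : K[X]) (N : ℕ), ∀ t, q.eval t ≠ 0 →
      q.eval t ^ N * MvPolynomial.eval (fun j => (p j).eval t / q.eval t) f = h.eval t := by
  induction f using MvPolynomial.induction_on with
  | C c => exact ⟨C c, 0, fun t _ => by simp⟩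
  | add f g hf hg =>
    obtain ⟨a, N, ha⟩ := hf
    obtain ⟨b, M, hb⟩ := hg
    refine ⟨a * q ^ M + b * q ^ N, N + M, fun t ht => ?_⟩
    rw [map_add, eval_add, eval_mul, eval_mul, ← ha t ht, ← hb t ht, eval_pow, eval_pow, pow_add]
    ring
  | mul_X f j hf =>
    obtain ⟨a, N, ha⟩ := hf
    refine ⟨a * p j, N + 1, fun t ht => ?_⟩
    rw [map_mul, MvPolynomial.eval_X, eval_mul, ← ha t ht, pow_succ]
    field_simp

end general

variable {K : Type} [Field K] [CharZero K] {n : ℕ}

/-- the maximal ideal `P` among those for which the projection is not thin -/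
structure Max (S : Set (Fin (n + 1) → K)) (P : Ideal (MvPolynomial (Fin (n + 1)) K)) : Prop where
  not_thin : ¬ Thin (proj S P)
  thin : ∀ J, P < J → Thin (proj S J)

theorem exists_max (S : Set (Fin (n + 1) → K)) (h : ¬ Thin {a | ∃ x ∈ S, x 0 = a}) :
    ∃ P : Ideal (MvPolynomial (Fin (n + 1)) K), Max S P := by
  have h0 : ¬ Thin (proj S (⊥ : Ideal (MvPolynomial (Fin (n + 1)) K))) := by
    intro hcon
    refine h (hcon.mono ?_)
    rintro a ⟨x, hx, rfl⟩
    exact ⟨x, hx, fun f hf => by rw [Ideal.mem_bot.1 hf, map_zero], rfl⟩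
  obtain ⟨P, hP, hP'⟩ := WellFounded.has_min
    (wellFounded_gt (α := Ideal (MvPolynomial (Fin (n + 1)) K)))
    {I | ¬ Thin (proj S I)} ⟨⊥, h0⟩
  exact ⟨P, hP, fun J hJ => by_contra fun hcon => hP' J hcon hJ⟩

namespace Max

variable {S : Set (Fin (n + 1) → K)} {P : Ideal (MvPolynomial (Fin (n + 1)) K)}

theorem lt_sup {f : MvPolynomial (Fin (n + 1)) K} (hf : f ∉ P) : P < P ⊔ Ideal.span {f} := by
  refine lt_of_le_of_ne le_sup_left fun h => hf ?_
  rw [h]
  exact Ideal.mem_sup_right (Ideal.mem_span_singleton_self f)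

theorem vanish_sup {f : MvPolynomial (Fin (n + 1)) K} {x : Fin (n + 1) → K}
    (hP : ∀ g ∈ P, MvPolynomial.eval x g = 0) (hf : MvPolynomial.eval x f = 0) :
    ∀ g ∈ P ⊔ Ideal.span {f}, MvPolynomial.eval x g = 0 := by
  intro g hg
  obtain ⟨a, ha, b, hb, rfl⟩ := Submodule.mem_sup.1 hg
  obtain ⟨c, rfl⟩ := Ideal.mem_span_singleton'.1 hb
  rw [map_add, hP a ha, map_mul, hf, mul_zero, add_zero]

theorem dense (h : Max S P) (f : MvPolynomial (Fin (n + 1)) K)
    (hf : ∀ x ∈ S, (∀ g ∈ P, MvPolynomial.eval x g = 0) → MvPolynomial.eval x f = 0) : f ∈ P := by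
  by_contra hcon
  refine h.not_thin ((h.thin _ (lt_sup hcon)).mono ?_)
  rintro a ⟨x, hx, hx', rfl⟩
  exact ⟨x, hx, vanish_sup hx' (hf x hx hx'), rfl⟩

/-- the part of the projection where `w` does not vanish is not thin -/
theorem cut (h : Max S P) {w : MvPolynomial (Fin (n + 1)) K} (hw : w ∉ P) :
    ¬ Thin {a | ∃ x ∈ S, (∀ g ∈ P, MvPolynomial.eval x g = 0) ∧ MvPolynomial.eval x w ≠ 0 ∧
      x 0 = a} := by
  intro hcon
  refine h.not_thin ((hcon.union (h.thin _ (lt_sup hw))).mono ?_)
  rintro a ⟨x, hx, hx', rfl⟩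
  by_cases hxw : MvPolynomial.eval x w = 0
  · exact Or.inr ⟨x, hx, vanish_sup hx' hxw, rfl⟩
  · exact Or.inl ⟨x, hx, hx', hxw, rfl⟩

theorem isPrime (h : Max S P) : P.IsPrime := by
  refine ⟨?_, ?_⟩
  · rintro rfl
    refine h.not_thin (Thin.of_finite ?_)
    convert Set.finite_empty
    refine Set.eq_empty_of_forall_notMem ?_
    rintro a ⟨x, -, hx, -⟩
    have h1 := hx 1 trivial
    rw [map_one] at h1
    exact one_ne_zero h1
  · intro f g hfg
    by_contra hcon
    push Not at hcon
    refine h.not_thin (((h.thin _ (lt_sup hcon.1)).union (h.thin _ (lt_sup hcon.2))).mono ?_)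
    rintro a ⟨x, hx, hx', rfl⟩
    have h1 := hx' _ hfg
    rw [map_mul, mul_eq_zero] at h1
    rcases h1 with h1 | h1
    · exact Or.inl ⟨x, hx, vanish_sup hx' h1, rfl⟩
    · exact Or.inr ⟨x, hx, vanish_sup hx' h1, rfl⟩

/-- the first coordinate is transcendental -/
theorem up_ne (h : Max S P) {p : K[X]} (hp : p ≠ 0) : up P p ≠ 0 := by
  classical
  intro hcon
  rw [up_apply, emb_eq_zero] at hcon
  refine h.not_thin (Thin.of_finite ((p.roots.toFinset.finite_toSet).subset ?_))
  rintro a ⟨x, -, hx, rfl⟩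
  have h1 := hx _ hcon
  rw [eval_aeval] at h1
  simp [hp, h1]

/-- an element of the function field is not a root of a monic polynomial without roots -/
theorem no_root (h : Max S P) [P.IsPrime]
    (β : FractionRing (MvPolynomial (Fin (n + 1)) K ⧸ P)) (G : K[X][X]) (hG : G.Monic)
    (hG' : ∀ g : K[X], G.eval g ≠ 0) : G.eval₂ (up P) β ≠ 0 := by
  intro h0
  obtain ⟨a, b, hb, rfl⟩ := IsFractionRing.div_surjective
    (A := MvPolynomial (Fin (n + 1)) K ⧸ P) β
  obtain ⟨u, rfl⟩ := Ideal.Quotient.mk_surjective a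
  obtain ⟨w, rfl⟩ := Ideal.Quotient.mk_surjective b
  have hw : w ∉ P := by
    intro hw
    rw [← Ideal.Quotient.eq_zero_iff_mem] at hw
    rw [hw] at hb
    exact nonZeroDivisors.ne_zero hb rfl
  have hw0 : emb P w ≠ 0 := fun h => hw ((emb_eq_zero P w).1 h)
  set H : MvPolynomial (Fin (n + 1)) K := ∑ i ∈ Finset.range (G.natDegree + 1),
    Polynomial.aeval (MvPolynomial.X 0 : MvPolynomial (Fin (n + 1)) K) (G.coeff i) * u ^ i *
      w ^ (G.natDegree - i) with hH
  have h1 : emb P H = 0 := by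
    rw [hH, map_sum]
    have h2 := sum_homog (up P) G (emb P u) (emb P w) hw0
    have h3 : G.eval₂ (up P) (emb P u / emb P w) = 0 := h0
    rw [h3, mul_zero] at h2
    rw [← h2]
    refine Finset.sum_congr rfl fun i _ => ?_
    rw [map_mul, map_mul, map_pow, map_pow]
    rfl
  rw [emb_eq_zero] at h1
  refine h.cut hw ⟨∅, Set.finite_empty, G, hG, hG', ?_⟩
  rintro a ⟨x, -, hx, hxw, rfl⟩
  refine Or.inr ⟨MvPolynomial.eval x u / MvPolynomial.eval x w, ?_⟩
  have h4 := hx H h1
  rw [hH, map_sum] at h4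
  have h5 := sum_homog (Polynomial.evalRingHom (x 0)) G (MvPolynomial.eval x u)
    (MvPolynomial.eval x w) hxw
  have h6 : ∑ i ∈ Finset.range (G.natDegree + 1), (Polynomial.evalRingHom (x 0)) (G.coeff i) *
      MvPolynomial.eval x u ^ i * MvPolynomial.eval x w ^ (G.natDegree - i) = 0 := by
    rw [← h4]
    refine Finset.sum_congr rfl fun i _ => ?_
    rw [map_mul, map_mul, map_pow, map_pow, eval_aeval]
    rfl
  rw [h6, Polynomial.eval₂_evalRingHom] at h5
  exact (mul_eq_zero.1 h5.symm).resolve_left (pow_ne_zero _ hxw)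

/-- integral elements are polynomials in the first coordinate -/
theorem eq_up (h : Max S P) [P.IsPrime]
    (β : FractionRing (MvPolynomial (Fin (n + 1)) K ⧸ P)) (D : ℕ) : ∀ G : K[X][X], G.Monic →
      G.natDegree = D → G.eval₂ (up P) β = 0 → ∃ g : K[X], β = up P g := by
  induction D using Nat.strong_induction_on with
  | _ D ih =>
    intro G hG hD h0
    by_cases hr : ∀ g : K[X], G.eval g ≠ 0
    · exact absurd h0 (h.no_root β G hG hr)
    · push Not at hr
      obtain ⟨g, hg⟩ := hr
      obtain ⟨H, hH⟩ := dvd_iff_isRoot.2 hg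
      have hHm : H.Monic := by
        have h1 : (X - C g : K[X][X]).Monic := monic_X_sub_C g
        rw [hH] at hG
        exact h1.of_mul_monic_left hG
      rw [hH, eval₂_mul, mul_eq_zero] at h0
      rcases h0 with h0 | h0
      · refine ⟨g, ?_⟩
        rw [eval₂_sub, eval₂_X, eval₂_C, sub_eq_zero] at h0
        exact h0
      · refine ih H.natDegree ?_ H hHm rfl h0
        rw [← hD, hH, (monic_X_sub_C g).natDegree_mul hHm, natDegree_X_sub_C]
        omega

/-- elements algebraic over the first coordinate are rational functions of it -/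
theorem eq_div (h : Max S P) [P.IsPrime]
    (α : FractionRing (MvPolynomial (Fin (n + 1)) K ⧸ P)) (G : K[X][X]) (hG : G ≠ 0)
    (h0 : G.eval₂ (up P) α = 0) : ∃ p q : K[X], q ≠ 0 ∧ α = up P p / up P q := by
  have h1 : (integralNormalization G).eval₂ (up P) (up P G.leadingCoeff * α) = 0 :=
    integralNormalization_eval₂_eq_zero (up P) h0 fun x hx => by
      by_contra hcon
      exact h.up_ne hcon hx
  obtain ⟨g, hg⟩ := h.eq_up _ _ _ (monic_integralNormalization hG) rfl h1
  have hl : G.leadingCoeff ≠ 0 := leadingCoeff_ne_zero.2 hG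
  exact ⟨g, G.leadingCoeff, hl, eq_div_of_mul_eq (h.up_ne hl) (by rw [mul_comm]; exact hg)⟩

/-- if the zero set belongs to `S` outside of the zeros of `e`, and the first coordinates of `S` are
in a flat set, then not all coordinates are rational functions of the first one -/
theorem not_rational (h : Max S P) [P.IsPrime] {O : Set K} (hO : Flat O)
    {e : MvPolynomial (Fin (n + 1)) K} (he : e ∉ P)
    (hS : ∀ x, (∀ f ∈ P, MvPolynomial.eval x f = 0) → MvPolynomial.eval x e ≠ 0 → x 0 ∈ O)
    (p q : Fin (n + 1) → K[X]) (hq : ∀ j, q j ≠ 0)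
    (hpq : ∀ j, emb P (MvPolynomial.X j) = up P (p j) / up P (q j)) : False := by
  classical
  set Q : K[X] := ∏ j, q j with hQ
  have hQ0 : Q ≠ 0 := Finset.prod_ne_zero_iff.2 fun j _ => hq j
  set R : Fin (n + 1) → K[X] := fun j => p j * ∏ i ∈ Finset.univ.erase j, q i with hR
  have hQj : ∀ j, Q = q j * ∏ i ∈ Finset.univ.erase j, q i := fun j =>
    (Finset.mul_prod_erase _ _ (Finset.mem_univ j)).symm
  have h1 : ∀ j, emb P (MvPolynomial.X j) * up P Q = up P (R j) := by
    intro j
    rw [hpq j, hQj j, hR, map_mul, map_mul]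
    have h2 := h.up_ne (hq j)
    field_simp
  have h2 : ∀ x : Fin (n + 1) → K, (∀ f ∈ P, MvPolynomial.eval x f = 0) → ∀ j,
      x j * Q.eval (x 0) = (R j).eval (x 0) := by
    intro x hx j
    have h3 : MvPolynomial.X j * Polynomial.aeval (MvPolynomial.X 0) Q -
        Polynomial.aeval (MvPolynomial.X 0) (R j) ∈ P := by
      rw [← emb_eq_zero, map_sub, map_mul, sub_eq_zero]
      exact h1 j
    have h4 := hx _ h3
    rw [map_sub, map_mul, MvPolynomial.eval_X, eval_aeval, eval_aeval, sub_eq_zero] at h4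
    exact h4
  have hR0 : R 0 = X * Q := by
    have h3 : up P (R 0 - X * Q) = 0 := by
      rw [map_sub, ← h1 0, map_mul, up_apply P X, Polynomial.aeval_X, sub_self]
    by_contra hcon
    exact h.up_ne (sub_ne_zero.2 hcon) h3
  have hw : Polynomial.aeval (MvPolynomial.X 0 : MvPolynomial (Fin (n + 1)) K) Q ∉ P := by
    rw [← emb_eq_zero]
    exact h.up_ne hQ0
  have hinf := h.cut hw
  have hpt : ∀ x : Fin (n + 1) → K, (∀ f ∈ P, MvPolynomial.eval x f = 0) → Q.eval (x 0) ≠ 0 →
      (fun j => (R j).eval (x 0) / Q.eval (x 0)) = x := by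
    intro x hx hxw
    funext j
    rw [← h2 x hx j, mul_div_assoc, div_self hxw, mul_one]
  have hcurve : ∀ t, Q.eval t ≠ 0 → ∀ f ∈ P,
      MvPolynomial.eval (fun j => (R j).eval t / Q.eval t) f = 0 := by
    intro t ht f hf
    obtain ⟨g, N, hg⟩ := subst R Q f
    have hg0 : g = 0 := by
      by_contra hcon
      refine hinf (Thin.of_finite ((g.roots.toFinset.finite_toSet).subset ?_))
      rintro a ⟨x, -, hx, hxw, rfl⟩
      rw [eval_aeval] at hxw
      have h4 := hg (x 0) hxw
      rw [hpt x hx hxw, hx f hf, mul_zero] at h4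
      simp [hcon, h4.symm]
    have h5 := hg t ht
    rw [hg0, eval_zero] at h5
    exact (mul_eq_zero.1 h5).resolve_left (pow_ne_zero _ ht)
  obtain ⟨g, N, hg⟩ := subst R Q e
  have hg0 : g ≠ 0 := by
    have h3 := h.cut (w := Polynomial.aeval (MvPolynomial.X 0 : MvPolynomial (Fin (n + 1)) K) Q * e)
      (fun hcon => (‹P.IsPrime›.mem_or_mem hcon).elim hw he)
    rintro rfl
    refine h3 (Thin.of_finite ?_)
    convert Set.finite_empty
    refine Set.eq_empty_of_forall_notMem ?_
    rintro a ⟨x, -, hx, hxw, -⟩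
    rw [map_mul, eval_aeval] at hxw
    have h4 := hg (x 0) (left_ne_zero_of_mul hxw)
    rw [hpt x hx (left_ne_zero_of_mul hxw), eval_zero] at h4
    exact mul_ne_zero (pow_ne_zero _ (left_ne_zero_of_mul hxw)) (right_ne_zero_of_mul hxw) h4
  obtain ⟨c, hc⟩ := hO (Q * g) (R 0 * g) (mul_ne_zero hQ0 hg0) (by
    intro t ht
    rw [eval_mul] at ht
    have ht1 : Q.eval t ≠ 0 := left_ne_zero_of_mul ht
    have ht2 : g.eval t ≠ 0 := right_ne_zero_of_mul ht
    have h7 : (R 0 * g).eval t / (Q * g).eval t = (R 0).eval t / Q.eval t := by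
      rw [eval_mul (p := R 0), eval_mul (p := Q), mul_div_mul_right _ _ ht2]
    rw [h7]
    refine hS _ (hcurve t ht1) fun hcon => ht2 ?_
    rw [← hg t ht1, hcon, mul_zero])
  have h5 : R 0 = C c * Q := by
    refine mul_right_cancel₀ hg0 ?_
    rw [hc]
    ring
  rw [hR0] at h5
  have h6 : (X : K[X]) = C c := mul_right_cancel₀ hQ0 h5
  exact Polynomial.X_ne_C c h6

end Max

end Pool.Agent.Q312.PR
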